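import Pool.Agent.W550.Murre.Final

/-!
# Murre's independence conjecture: equivalent forms, retracts, and a reduction

`C` are the Chow groups (with rational coefficients), `H` is a Weil cohomology theory, and
`IsCK H X π` says that `π 0, π 1, ..., π (2 dim X)` is a Chow-Kunneth decomposition of `X`.
-/

open CategoryTheory AlgebraicGeometry

universe u v w

namespace Pool.Agent.Results.MP_10f4af_ag.Truncations

open Pool.Agent.H914 Pool.Agent.H914.VarClass Pool.Agent.H914.VarClass.Obj Pool.Agent.W492.BB
  Pool.Agent.W550.Corr Pool.Agent.W550.Murre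

variable {k : Type u} [Field k] {𝒱 : VarClass k} {C : TheoryData.{u, v, 0} 𝒱 ℚ} {K : Type w}
  [Field K]

theorem result (H : WeilTheoryData.{u, v, w} C K) [IsChow C] [IsWeil H] (hS : IsStandard H) :
    -- Murre's independence for one variety `X` implies `F^0 CH^i(X) = CH^i(X)` for every
    -- Chow-Kunneth decomposition, and that correspondences of degree zero from `X` to `X`
    -- respect the filtration
    (∀ X : 𝒱.Obj, Independent H X → ∀ π : ℕ → C.A (X.prod X), IsCK H X π →
      (∀ i : ℕ, ckF π i 0 = C.gr X i) ∧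
      ∀ ν : C.A (X.prod X), C.Deg X.dim ν → ∀ (i : ℕ) (n : ℤ), ∀ x ∈ ckF π i n,
        C.act ν x ∈ ckF π i n) ∧
    -- independence for `X × X` implies the independence of the truncations of the motive of `X`,
    -- and this implies independence for `X`
    (∀ X : 𝒱.Obj, (Independent H (X.prod X) → TruncInd H X) ∧
      (TruncInd H X → Independent H X)) ∧
    -- characterisation of the independence of the truncations of the motive of `X`
    (∀ X : 𝒱.Obj, HasCK H X →
      [TruncInd H X,
        (∀ π : ℕ → C.A (X.prod X), IsCK H X π → Triangular π) ∧ NoPhantom H X,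
        (∃ π : ℕ → C.A (X.prod X), IsCK H X π ∧ Triangular π) ∧ NoPhantom H X].TFAE) ∧
    -- it passes to retracts, and so does then the existence of a Chow-Kunneth decomposition
    (∀ X Y : 𝒱.Obj, IsRetract C X Y → HasCK H Y → TruncInd H Y →
      HasCK H X ∧ TruncInd H X) ∧
    -- hence independence for a class of varieties which is closed under squares implies
    -- independence for all retracts of its members
    (∀ 𝒟 : Set 𝒱.Obj, (∀ Y ∈ 𝒟, Y.prod Y ∈ 𝒟) → (∀ Y ∈ 𝒟, HasCK H Y) →
      (∀ Y ∈ 𝒟, Independent H Y) → ∀ X : 𝒱.Obj, (∃ Y ∈ 𝒟, IsRetract C X Y) →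
        HasCK H X ∧ TruncInd H X ∧ Independent H X) ∧
    -- equivalent forms of independence for all varieties
    [∀ X : 𝒱.Obj, Independent H X, ∀ X : 𝒱.Obj, Vanishing H X, ∀ X : 𝒱.Obj, TruncInd H X,
      TriangularAll H, FunctorialAll H,
      ∀ X : 𝒱.Obj, HasCK H X → (∃ π : ℕ → C.A (X.prod X), IsCK H X π ∧ Triangular π) ∧
        NoPhantom H X].TFAE := by
  have hI : HasIso C := hasIso_of_std H hS
  refine ⟨fun X hX π hπ => ⟨fun i => ?_, fun ν hν i n x hx => ?_⟩, fun X => ⟨fun h => ?_,
    fun h => ?_⟩, fun X hX => truncInd_tfae hX, fun X Y hXY hY h => h.retract hY hXY,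
    fun 𝒟 h1 h2 h3 X hX => reduction hS 𝒟 h1 h2 h3 X hX, global_tfae hS⟩
  · rw [ckF_zero_iff hπ]
    exact fun j hj x hx => F_zero_of_independent hX hπ hj hx
  · exact stable_of_independent hX hπ hν hx
  · exact truncInd_of_square hS h
  · exact independent_of_truncInd h

end Pool.Agent.Results.MP_10f4af_ag.Truncations
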